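import Pool.Agent.R795.PD.Example

/-!
# A Poincaré duality CDGA of signature zero which is not a semi-trivial mapping cone

For every `k ≥ 1` the graded algebra `A = ℚ⟨1, x, y, w⟩` with zero differential, `x, y` of degree
`2k`, `w` of degree `4k`, and `x² = w`, `y² = -2 w`, `x y = 0`, satisfies Poincaré duality in
dimension `4k = n - 1` and has signature `0`, but it is not quasi-isomorphic to
`Q ⊕_Ψ s s^{-n} #Q` for any CDGA `Q` and any balanced `Ψ : s^{-n} #Q → Q`. The obstruction is that
in such a cone the classes coming from `H^{2k}(Q)` have square zero, while the form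
`a² - 2 b²` is anisotropic over `ℚ`.
-/

set_option autoImplicit false

namespace Pool.Agent.Results.MP_43ef35_gt.WittObstruction

open Pool.Agent.R795.PD

theorem double (k : ℤ) : 2 * k + 2 * k = 4 * k := by ring

theorem result (k : ℤ) (hk : 0 < k) :
    ∃ (A : CDGA) (ω : A.V.X (4 * k) → ℚ),
      (∀ p : ℤ, p ≠ 0 → p ≠ 2 * k → p ≠ 4 * k → Subsingleton (A.V.X p)) ∧
      A.PoincareDuality (4 * k) ω ∧ A.SignatureZero (2 * k) (4 * k) (double k) ω ∧
      ∀ (Q : CDGA) (Ψ : (shiftDual Q (4 * k + 1)).HomToBase) (hΨ : Ψ.Balanced),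
        ¬ QuasiIsomorphic A (cone Ψ hΨ) := by
  refine ⟨exAlg k, exOmega k, ?_, exAlg_poincareDuality k hk, exAlg_signatureZero k hk (double k), ?_⟩
  · intro p h0 h2 h4
    refine ⟨fun x y => exGS_ext ?_⟩
    ext i
    have hi : exDeg k i ≠ p := by
      fin_cases i
      · exact h0.symm
      · exact h2.symm
      · exact h2.symm
      · exact h4.symm
    rw [x.2 i hi, y.2 i hi]
  · intro Q Ψ hΨ h'
    exact not_good_cone (p := 2 * k) (double k) Ψ hΨ
      ((Good.iff_of_quasiIsomorphic h').1 (exAlg_good k hk))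

end Pool.Agent.Results.MP_43ef35_gt.WittObstruction
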